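import Pool.Agent.V5helper56.GR.Main

/-!
# Uniform bounds along cyclic extensions: cyclic extensions
-/

set_option autoImplicit false
set_option linter.style.haveILetI false
set_option linter.unusedSectionVars false
set_option linter.unusedVariables false

namespace Pool.Agent.V5helper56.GR

open NumberField IsLocalRing Matrix Pool.Agent.Z384 Pool.Agent.W569.FM Pool.Agent.W571.FM
open Pool.Agent.R417.FK Pool.Agent.Helper832_EG Pool.Agent.V5helper56.LI Pool.Agent.V5helper56.DU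

theorem index_pow_le (A : Type) [CommGroup A] [Finite A] [IsCyclic A] (h : ℕ) (h0 : h ≠ 0) :
    (powMonoidHom h : A →* A).range.index ≤ h := by
  classical
  haveI : Fintype A := Fintype.ofFinite A
  have h1 := (powMonoidHom h : A →* A).range.index_mul_card
  have h2 := (powMonoidHom h : A →* A).ker.index_mul_card
  rw [Subgroup.index_ker] at h2
  have h3 : Nat.card (powMonoidHom h : A →* A).ker ≤ h := by
    have h4 := IsCyclic.card_pow_eq_one_le (α := A) (Nat.pos_of_ne_zero h0)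
    have h5 : Nat.card (powMonoidHom h : A →* A).ker = (Finset.univ.filter fun a : A => a ^ h = 1).card := by
      rw [Nat.card_eq_fintype_card]
      exact Fintype.card_of_subtype _ (fun a => by
        rw [Finset.mem_filter, MonoidHom.mem_ker, powMonoidHom_apply]
        exact ⟨fun h => h.2, fun h => ⟨Finset.mem_univ _, h⟩⟩)
    rw [h5]
    exact h4
  have h6 : 0 < Nat.card (powMonoidHom h : A →* A).range := Nat.card_pos
  have h7 : (powMonoidHom h : A →* A).range.index * Nat.card (powMonoidHom h : A →* A).range =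
      Nat.card (powMonoidHom h : A →* A).ker * Nat.card (powMonoidHom h : A →* A).range := by
    rw [h1, ← h2, mul_comm]
  rw [Nat.eq_of_mul_eq_mul_right h6 h7]
  exact h3

section
variable {Γ : Type} [Group Γ] {G M H E I : Subgroup Γ} {A : Type} [CommGroup A] {χ : G →* A}

theorem mnor (hχ : ∀ g : G, χ g = 1 ↔ (g : Γ) ∈ M) (hMG : M ≤ G) :
    ∀ g ∈ G, ∀ σ ∈ M, g * σ * g⁻¹ ∈ M := by
  intro g hg σ hσ
  have h2 := (hχ ⟨σ, hMG hσ⟩).2 hσ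
  refine (hχ (⟨g, hg⟩ * ⟨σ, hMG hσ⟩ * ⟨g, hg⟩⁻¹)).1 ?_
  rw [map_mul, map_mul, map_inv, h2, mul_one, mul_inv_cancel]

theorem mpow {p : ℕ} (hχ : ∀ g : G, χ g = 1 ↔ (g : Γ) ∈ M) (hAp : ∀ a : A, ∃ m : ℕ, a ^ p ^ m = 1) :
    ∀ g ∈ G, ∃ m : ℕ, g ^ p ^ m ∈ M := by
  intro g hg
  obtain ⟨m, hm⟩ := hAp (χ ⟨g, hg⟩)
  refine ⟨m, (hχ (⟨g, hg⟩ ^ p ^ m)).1 ?_⟩
  rw [map_pow]
  exact hm

theorem wgrp [Finite A] [IsCyclic A] (hχs : Function.Surjective χ) (hχ : ∀ g : G, χ g = 1 ↔ (g : Γ) ∈ M)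
    (hMG : M ≤ G) (hHn : ∀ g ∈ G, ∀ σ ∈ H, g * σ * g⁻¹ ∈ H) (hHE : H ≤ E) (hH0 : H.relIndex G ≠ 0)
    (hI : ∀ g ∈ G, ∃ i ∈ I, i ∈ G ∧ i⁻¹ * g ∈ M) :
    ∃ W : Subgroup Γ, M ≤ W ∧ W ≤ G ∧ (∀ g ∈ G, ∀ σ ∈ W, g * σ * g⁻¹ ∈ W) ∧
      (∀ g ∈ E ⊓ W, ∃ i ∈ I, i ∈ E ⊓ W ∧ i⁻¹ * g ∈ M) ∧
      (H ⊓ W).relIndex G ≤ H.relIndex G * H.relIndex G := by
  classical
  obtain ⟨h, hh⟩ : ∃ h : ℕ, h = (H.subgroupOf G).index := ⟨_, rfl⟩
  have h0 : h ≠ 0 := by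
    rw [hh]
    exact hH0
  have hHn' : (H.subgroupOf G).Normal := ⟨fun x hx g => hHn g g.2 x hx⟩
  let W : Subgroup Γ :=
    { carrier := {g | ∃ hg : g ∈ G, ∃ b : G, χ ⟨g, hg⟩ = χ b ^ h}
      one_mem' := ⟨G.one_mem, 1, by
        rw [map_one, one_pow]
        exact map_one χ⟩
      mul_mem' := by
        rintro x y ⟨hx, b, hb⟩ ⟨hy, c, hc⟩
        refine ⟨G.mul_mem hx hy, b * c, ?_⟩
        have e : χ ⟨x * y, G.mul_mem hx hy⟩ = χ ⟨x, hx⟩ * χ ⟨y, hy⟩ := map_mul χ ⟨x, hx⟩ ⟨y, hy⟩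
        rw [e, hb, hc, map_mul, mul_pow]
      inv_mem' := by
        rintro x ⟨hx, b, hb⟩
        refine ⟨G.inv_mem hx, b⁻¹, ?_⟩
        have e : χ ⟨x⁻¹, G.inv_mem hx⟩ = (χ ⟨x, hx⟩)⁻¹ := map_inv χ ⟨x, hx⟩
        rw [e, hb, map_inv, inv_pow] }
  refine ⟨W, fun g hg => ⟨hMG hg, 1, ?_⟩, fun g hg => hg.1, ?_, ?_, ?_⟩
  · rw [(hχ ⟨g, hMG hg⟩).2 hg, map_one, one_pow]
  · rintro g hg σ ⟨hσ, b, hb⟩
    refine ⟨G.mul_mem (G.mul_mem hg hσ) (G.inv_mem hg), b, ?_⟩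
    have e0 : (⟨g * σ * g⁻¹, G.mul_mem (G.mul_mem hg hσ) (G.inv_mem hg)⟩ : G) =
        ⟨g, hg⟩ * ⟨σ, hσ⟩ * ⟨g, hg⟩⁻¹ := rfl
    rw [e0, map_mul, map_mul, map_inv, mul_inv_cancel_comm, hb]
  · rintro g ⟨hgE, hgG, b, hb⟩
    obtain ⟨i, hi, hiG, hib⟩ := hI b b.2
    have e1 : χ ⟨i, hiG⟩ = χ b := by
      have h2 := (hχ (⟨i, hiG⟩⁻¹ * b)).2 hib
      rw [map_mul, map_inv, inv_mul_eq_one] at h2
      exact h2
    have hiH : i ^ h ∈ H := by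
      have h3 := (H.subgroupOf G).pow_index_mem (⟨i, hiG⟩ : G)
      rw [← hh, Subgroup.mem_subgroupOf, Subgroup.coe_pow] at h3
      exact h3
    have e2 : χ ⟨i ^ h, G.pow_mem hiG h⟩ = χ b ^ h := by
      have e3 : (⟨i ^ h, G.pow_mem hiG h⟩ : G) = ⟨i, hiG⟩ ^ h := Subtype.ext (Subgroup.coe_pow G (⟨i, hiG⟩ : G) h).symm
      rw [e3, map_pow, e1]
    refine ⟨i ^ h, I.pow_mem hi h, ⟨hHE hiH, G.pow_mem hiG h, b, e2⟩, ?_⟩
    refine (hχ (⟨i ^ h, G.pow_mem hiG h⟩⁻¹ * ⟨g, hgG⟩)).1 ?_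
    rw [map_mul, map_inv, e2, hb, inv_mul_cancel]
  · refine (Subgroup.relIndex_inf_le).trans (Nat.mul_le_mul_left _ ?_)
    have hhr : H.relIndex G = h := hh.symm
    rw [hhr]
    have e : W.subgroupOf G = (powMonoidHom h : A →* A).range.comap χ := by
      ext g
      rw [Subgroup.mem_subgroupOf, Subgroup.mem_comap, MonoidHom.mem_range]
      constructor
      · rintro ⟨hg, b, hb⟩
        exact ⟨χ b, hb.symm⟩
      · rintro ⟨a, ha⟩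
        obtain ⟨b, rfl⟩ := hχs a
        exact ⟨g.2, b, ha.symm⟩
    unfold Subgroup.relIndex
    rw [e, Subgroup.index_comap, MonoidHom.range_eq_top.2 hχs, Subgroup.relIndex_top_right]
    exact index_pow_le _ h h0

end

section
variable {k : Type} [Field k] [NumberField k] {p : ℕ} [hp : Fact p.Prime]

/-- **The uniform bound.** -/
theorem cyc (hCHR : S_CHR) (K : IntermediateField k (AlgebraicClosure k)) [FiniteDimensional k K]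
    [NumberField K] (hinf : p ≠ 2 ∨ IsTotallyComplex K) (h1 : OnePrime K p) (hcl : ¬ p ∣ classNumber K)
    {T : Set (Ideal (𝓞 K))} (hTf : T.Finite) (hT : IndepP p K T) {H E M V : Subgroup (GF k)}
    (hH : PExt p K T H) (hHE : H ≤ E) (hE : E ≤ K.fixingSubgroup) (hH0 : H.relIndex K.fixingSubgroup ≠ 0)
    (hMo : IsOpen (M : Set (GF k))) (hMG : M ≤ K.fixingSubgroup)
    (hMi : ∀ Q : Ideal (OO k), Q.IsMaximal → (p : OO k) ∉ Q → ∀ σ ∈ inertia Q, σ ∈ K.fixingSubgroup → σ ∈ M)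
    (A : Type) [CommGroup A] [Finite A] [IsCyclic A] (hAp : ∀ a : A, ∃ m : ℕ, a ^ p ^ m = 1)
    (χ : K.fixingSubgroup →* A) (hχs : Function.Surjective χ)
    (hχ : ∀ g : K.fixingSubgroup, χ g = 1 ↔ (g : GF k) ∈ M)
    (hVE : V ≤ E ⊓ M) (hVo : IsOpen (V : Set (GF k))) (hVn : ∀ g ∈ E ⊓ M, ∀ σ ∈ V, g * σ * g⁻¹ ∈ V)
    (hVp : ∀ g ∈ E ⊓ M, ∃ m : ℕ, g ^ p ^ m ∈ V)
    (hVi : ∀ Q : Ideal (OO k), Q.IsMaximal → ∀ σ ∈ inertia Q, σ ∈ E ⊓ M → σ ∈ V)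
    {P : Ideal (OO k)} (hP : P.IsMaximal) (hpP : (p : OO k) ∈ P) :
    V.relIndex (E ⊓ M) ≠ 0 ∧
      V.relIndex (E ⊓ M) ≤ (H.relIndex K.fixingSubgroup * H.relIndex K.fixingSubgroup) ^ (Nat.card T + 1) ∧
      ∀ a ∈ E ⊓ M, ∀ b ∈ E ⊓ M, a * b * a⁻¹ * b⁻¹ ∈ V := by
  have hMn := mnor hχ hMG
  have hMp := mpow (p := p) hχ hAp
  obtain ⟨W, hMW, hWG, hWn, hWi, hWb⟩ := wgrp (E := E) (I := inertia P) hχs hχ hMG hH.conj hHE hH0
    (fun g hg => iner K hinf h1 hcl hMo hMG hMn hMp hMi hP hpP hg)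
  obtain ⟨r0, r1, r2⟩ := uni hCHR K hinf h1 hcl hTf hT hH hHE hE hMo hMG hMn hMp hMi hVE hVo hVn hVp hVi hP hpP
    hMW hWG hWn hWi
  exact ⟨r0, r1.trans (Nat.pow_le_pow_left hWb _), r2⟩

end

end Pool.Agent.V5helper56.GR
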