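import Pool.Agent.V5helper56.DU.Tow

/-!
# Density of the decomposition group below extensions unramified over a subextension
-/

set_option autoImplicit false
set_option linter.style.haveILetI false
set_option linter.unusedSectionVars false
set_option linter.unusedVariables false

namespace Pool.Agent.V5helper56.GR

open NumberField IsLocalRing Matrix Pool.Agent.Z384 Pool.Agent.W569.FM Pool.Agent.W571.FM
open Pool.Agent.R417.FK Pool.Agent.Helper832_EG Pool.Agent.V5helper56.LI Pool.Agent.V5helper56.DU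

section
variable {k : Type} [Field k] [NumberField k] {p : ℕ} [hp : Fact p.Prime]

/-- As in `tower`: a subgroup of `V`, normal in `G`, modulo which the decomposition group is everything. -/
theorem dens (hCHR : S_CHR) (K : IntermediateField k (AlgebraicClosure k)) [FiniteDimensional k K]
    [NumberField K] (hinf : p ≠ 2 ∨ IsTotallyComplex K) (h1 : OnePrime K p) (hcl : ¬ p ∣ classNumber K)
    {T : Set (Ideal (𝓞 K))} (hTf : T.Finite) (hT : IndepP p K T) {H E V : Subgroup (GF k)}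
    (hH : PExt p K T H) (hHE : H ≤ E) (hE : E ≤ K.fixingSubgroup)
    (hVE : V ≤ E) (hVo : IsOpen (V : Set (GF k))) (hVn : ∀ g ∈ E, ∀ σ ∈ V, g * σ * g⁻¹ ∈ V)
    (hVp : ∀ g ∈ E, ∃ m : ℕ, g ^ p ^ m ∈ V)
    (hVi : ∀ Q : Ideal (OO k), Q.IsMaximal → ∀ σ ∈ inertia Q, σ ∈ E → σ ∈ V)
    {P : Ideal (OO k)} (hP : P.IsMaximal) (hpP : (p : OO k) ∈ P) :
    ∃ U : Subgroup (GF k), U ≤ V ∧ (∀ g ∈ K.fixingSubgroup, ∀ σ ∈ U, g * σ * g⁻¹ ∈ U) ∧
      ∀ g ∈ K.fixingSubgroup, ∃ δ ∈ dec P, δ ∈ K.fixingSubgroup ∧ δ⁻¹ * g ∈ U := by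
  classical
  have hNc : IsClosed (K.fixingSubgroup : Set (GF k)) := InfiniteGalois.fixingSubgroup_isClosed K
  haveI : CompactSpace K.fixingSubgroup := isCompact_iff_compactSpace.1 hNc.isCompact
  -- the group `E / V`
  have hEo : IsOpen (E : Set (GF k)) := Subgroup.isOpen_mono hVE hVo
  have hEc : IsClosed (E : Set (GF k)) := Subgroup.isClosed_of_isOpen _ hEo
  haveI : CompactSpace E := isCompact_iff_compactSpace.1 hEc.isCompact
  have hNn : (V.subgroupOf E).Normal := ⟨fun n hn g => hVn g g.2 n hn⟩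
  have hNo : IsOpen ((V.subgroupOf E : Subgroup E) : Set E) := hVo.preimage continuous_subtype_val
  haveI hNf : Finite (E ⧸ V.subgroupOf E) := Subgroup.quotient_finite_of_isOpen _ hNo
  have hNp : IsPGroup p (E ⧸ V.subgroupOf E) := by
    intro x
    obtain ⟨g, rfl⟩ := QuotientGroup.mk_surjective x
    obtain ⟨m, hm⟩ := hVp g g.2
    refine ⟨m, ?_⟩
    rw [← QuotientGroup.mk_pow]
    exact (QuotientGroup.eq_one_iff _).2 hm
  obtain ⟨m, hm⟩ := IsPGroup.iff_card.1 hNp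
  have hpow : ∀ z ∈ E, z ^ p ^ m ∈ V := by
    intro z hz
    have h2 : (QuotientGroup.mk (⟨z, hz⟩ : E) : E ⧸ V.subgroupOf E) ^ p ^ m = 1 := by
      rw [← hm]
      exact pow_card_eq_one'
    rw [← QuotientGroup.mk_pow] at h2
    have h3 : (⟨z, hz⟩ : E) ^ p ^ m ∈ V.subgroupOf E := (QuotientGroup.eq_one_iff _).1 h2
    exact h3
  -- the core
  set V' : Subgroup K.fixingSubgroup := (V ⊓ H).subgroupOf K.fixingSubgroup with hV'
  have hV'o : IsOpen (V' : Set K.fixingSubgroup) := by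
    have e : (V' : Set K.fixingSubgroup) = (Subtype.val : K.fixingSubgroup → GF k) ⁻¹' ((V : Set (GF k)) ∩ H) := rfl
    rw [e]
    exact (hVo.inter hH.opn).preimage continuous_subtype_val
  haveI : Finite (K.fixingSubgroup ⧸ V') := Subgroup.quotient_finite_of_isOpen V' hV'o
  haveI : V'.FiniteIndex := Subgroup.finiteIndex_of_finite_quotient
  have hUn : V'.normalCore.Normal := inferInstance
  have hUc : IsClosed (V'.normalCore : Set K.fixingSubgroup) :=
    Subgroup.normalCore_isClosed V' (Subgroup.isClosed_of_isOpen _ hV'o)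
  haveI : V'.normalCore.FiniteIndex := inferInstance
  have hUo : IsOpen (V'.normalCore : Set K.fixingSubgroup) := Subgroup.isOpen_of_isClosed_of_finiteIndex _ hUc
  have hmem : ∀ σ : K.fixingSubgroup, σ ∈ V'.normalCore ↔ ∀ b : K.fixingSubgroup,
      ((b : GF k) * σ * (b : GF k)⁻¹ ∈ V ∧ (b : GF k) * σ * (b : GF k)⁻¹ ∈ H) := fun σ => Iff.rfl
  have hpg : IsPGroup p (K.fixingSubgroup ⧸ V'.normalCore) := by
    intro x
    obtain ⟨g, rfl⟩ := QuotientGroup.mk_surjective x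
    obtain ⟨m', hm'⟩ := hH.pow g g.2
    refine ⟨m' + m, ?_⟩
    rw [← QuotientGroup.mk_pow]
    refine (QuotientGroup.eq_one_iff _).2 ((hmem _).2 fun b => ?_)
    have h2 : (b : GF k) * ((g ^ p ^ (m' + m) : K.fixingSubgroup) : GF k) * (b : GF k)⁻¹ =
        ((b : GF k) * (g : GF k) ^ p ^ m' * (b : GF k)⁻¹) ^ p ^ m := by
      rw [conj_pow, ← pow_mul, ← pow_add]
      rfl
    rw [h2]
    have h3 := hH.conj b b.2 _ hm'
    exact ⟨hpow _ (hHE h3), H.pow_mem h3 _⟩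
  have hin : ∀ Q : Ideal (OO k), Q.IsMaximal → ∀ σ : K.fixingSubgroup, (σ : GF k) ∈ inertia Q →
      (∀ b : K.fixingSubgroup, (b : GF k) * σ * (b : GF k)⁻¹ ∈ H) → σ ∈ V'.normalCore := by
    intro Q hQ σ hσ hb
    refine (hmem σ).2 fun b => ⟨?_, hb b⟩
    obtain ⟨Q', hQ', -, -, h4⟩ := conj_in (p := p) K hQ b.2 hσ
    exact hVi Q' hQ' _ h4 (hHE (hb b))
  obtain ⟨hD, -, -⟩ := bound_abs hCHR K hinf h1 hcl hTf hT V'.normalCore hUo hUn hpg
    (fun Q hQ hpQ hQT hQn σ hσ => hin Q hQ σ hσ fun b => by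
      obtain ⟨Q', hQ', h5, h6, h4⟩ := conj_in (p := p) K hQ b.2 hσ
      refine hH.unr Q' hQ' (fun h => hpQ (h5.1 h)) (by rw [h6]; exact hQT) (by rw [h6]; exact hQn) _ h4 ?_
      exact K.fixingSubgroup.mul_mem (K.fixingSubgroup.mul_mem b.2 σ.2) (K.fixingSubgroup.inv_mem b.2))
    (H.subgroupOf K.fixingSubgroup) (by
      have h7 : IsOpen ((H.subgroupOf K.fixingSubgroup : Subgroup K.fixingSubgroup) : Set K.fixingSubgroup) :=
        hH.opn.preimage continuous_subtype_val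
      haveI := Subgroup.quotient_finite_of_isOpen _ h7
      rw [Subgroup.index]
      exact Nat.card_pos.ne')
    (fun Q hQ σ hσ hσH => hin Q hQ σ hσ fun b => hH.conj b b.2 σ hσH) hP hpP
  refine ⟨V'.normalCore.map K.fixingSubgroup.subtype, ?_, ?_, ?_⟩
  · rintro _ ⟨σ, hσ, rfl⟩
    exact (Subgroup.normalCore_le V' hσ).1
  · rintro g hg _ ⟨σ, hσ, rfl⟩
    have h := Subgroup.mem_map_of_mem K.fixingSubgroup.subtype (hUn.conj_mem σ hσ ⟨g, hg⟩)
    rw [map_mul, map_mul, map_inv] at h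
    exact h
  · intro g hg
    obtain ⟨δ, hδ, hδg⟩ := hD ⟨g, hg⟩
    have h := Subgroup.mem_map_of_mem K.fixingSubgroup.subtype hδg
    rw [map_mul, map_inv] at h
    exact ⟨δ, hδ, δ.2, h⟩

/-- The inertia group at `p` generates every `p`-extension of `K` which is unramified outside `p`. -/
theorem iner (K : IntermediateField k (AlgebraicClosure k)) [FiniteDimensional k K]
    [NumberField K] (hinf : p ≠ 2 ∨ IsTotallyComplex K) (h1 : OnePrime K p) (hcl : ¬ p ∣ classNumber K)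
    {M : Subgroup (GF k)} (hMo : IsOpen (M : Set (GF k))) (hMG : M ≤ K.fixingSubgroup)
    (hMn : ∀ g ∈ K.fixingSubgroup, ∀ σ ∈ M, g * σ * g⁻¹ ∈ M)
    (hMp : ∀ g ∈ K.fixingSubgroup, ∃ m : ℕ, g ^ p ^ m ∈ M)
    (hMi : ∀ Q : Ideal (OO k), Q.IsMaximal → (p : OO k) ∉ Q → ∀ σ ∈ inertia Q, σ ∈ K.fixingSubgroup → σ ∈ M)
    {P : Ideal (OO k)} (hP : P.IsMaximal) (hpP : (p : OO k) ∈ P) {g : GF k} (hg : g ∈ K.fixingSubgroup) :
    ∃ i ∈ inertia P, i ∈ K.fixingSubgroup ∧ i⁻¹ * g ∈ M := by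
  classical
  have hNc : IsClosed (K.fixingSubgroup : Set (GF k)) := InfiniteGalois.fixingSubgroup_isClosed K
  haveI : CompactSpace K.fixingSubgroup := isCompact_iff_compactSpace.1 hNc.isCompact
  have hUn : (M.subgroupOf K.fixingSubgroup).Normal := ⟨fun n hn g => hMn g g.2 n hn⟩
  have hNo : IsOpen ((M.subgroupOf K.fixingSubgroup : Subgroup K.fixingSubgroup) : Set K.fixingSubgroup) :=
    hMo.preimage continuous_subtype_val
  have hfin : Finite (K.fixingSubgroup ⧸ M.subgroupOf K.fixingSubgroup) := Subgroup.quotient_finite_of_isOpen _ hNo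
  have hpg : IsPGroup p (K.fixingSubgroup ⧸ M.subgroupOf K.fixingSubgroup) := by
    intro x
    obtain ⟨g, rfl⟩ := QuotientGroup.mk_surjective x
    obtain ⟨m, hm⟩ := hMp g g.2
    refine ⟨m, ?_⟩
    rw [← QuotientGroup.mk_pow]
    exact (QuotientGroup.eq_one_iff _).2 hm
  suffices hkey : ∀ F : K.fixingSubgroup →* Multiplicative (ZMod p), (∀ σ ∈ M.subgroupOf K.fixingSubgroup, F σ = 1) →
      (∀ σ ∈ (inertia P).subgroupOf K.fixingSubgroup, F σ = 1) → ∀ σ, F σ = 1 by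
    obtain ⟨δ, hδ, hδg⟩ := burn (p := p) hUn hfin hpg ((inertia P).subgroupOf K.fixingSubgroup) hkey
      (⟨g, hg⟩ : K.fixingSubgroup)
    exact ⟨δ, hδ, δ.2, hδg⟩
  intro F hFU hFI
  let Ψ : GF k → ZMod p := fun x => if h : x ∈ K.fixingSubgroup then Multiplicative.toAdd (F ⟨x, h⟩) else 0
  have hΨv : ∀ x (h : x ∈ K.fixingSubgroup), Ψ x = Multiplicative.toAdd (F ⟨x, h⟩) := fun x h => dif_pos h
  have hΨ0 : ∀ x (h : x ∈ K.fixingSubgroup), F ⟨x, h⟩ = 1 → Ψ x = 0 := fun x h h' => by rw [hΨv x h, h']; rfl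
  have hΨ : IsCh K.fixingSubgroup Ψ := by
    refine ⟨fun x hx y hy => ?_, M, hMo, fun x hx hxU => ?_⟩
    · rw [hΨv x hx, hΨv y hy, hΨv _ (K.fixingSubgroup.mul_mem hx hy), ← toAdd_mul, ← map_mul]
      rfl
    · exact hΨ0 x hx (hFU _ hxU)
  have hall : ∀ x ∈ K.fixingSubgroup, Ψ x = 0 := by
    refine char_many K hinf hcl hΨ (T := ∅) Set.finite_empty (fun 𝔭 h => absurd h (Set.notMem_empty 𝔭)) ?_
    intro Q' hQ' _ hQn τ hτ hτN
    by_cases hpQ : (p : OO k) ∈ Q'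
    · obtain ⟨h, hh, hhQ⟩ := trans_fix K hP.isPrime hQ'.isPrime (under_eq K h1 hP hQ' hpP hpQ)
      have h3 : h⁻¹ * τ * h ∈ inertia P := inertia_conj hhQ hτ
      have h4 : h⁻¹ * τ * h ∈ K.fixingSubgroup := K.fixingSubgroup.mul_mem (K.fixingSubgroup.mul_mem (K.fixingSubgroup.inv_mem hh) hτN) hh
      rw [← ch_conj hΨ hh hτN]
      exact hΨ0 _ h4 (hFI ⟨_, h4⟩ h3)
    · exact hΨ0 _ hτN (hFU ⟨τ, hτN⟩ (hMi Q' hQ' hpQ τ hτ hτN))
  intro σ
  have h5 := hall σ σ.2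
  rw [hΨv σ σ.2] at h5
  exact Multiplicative.toAdd.injective h5

end

end Pool.Agent.V5helper56.GR
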