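import Pool.Agent.V5helper56.GR.Dens

/-!
# Uniform bounds along cyclic extensions
-/

set_option autoImplicit false
set_option linter.style.haveILetI false
set_option linter.unusedSectionVars false
set_option linter.unusedVariables false

namespace Pool.Agent.V5helper56.GR

open NumberField IsLocalRing Matrix Pool.Agent.Z384 Pool.Agent.W569.FM Pool.Agent.W571.FM
open Pool.Agent.R417.FK Pool.Agent.Helper832_EG Pool.Agent.V5helper56.LI Pool.Agent.V5helper56.DU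

section
variable {k : Type} [Field k] [NumberField k] {p : ℕ} [hp : Fact p.Prime]

/-- **Extensions unramified over a totally ramified extension.** -/
theorem uni (hCHR : S_CHR) (K : IntermediateField k (AlgebraicClosure k)) [FiniteDimensional k K]
    [NumberField K] (hinf : p ≠ 2 ∨ IsTotallyComplex K) (h1 : OnePrime K p) (hcl : ¬ p ∣ classNumber K)
    {T : Set (Ideal (𝓞 K))} (hTf : T.Finite) (hT : IndepP p K T) {H E M V : Subgroup (GF k)}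
    (hH : PExt p K T H) (hHE : H ≤ E) (hE : E ≤ K.fixingSubgroup)
    (hMo : IsOpen (M : Set (GF k))) (hMG : M ≤ K.fixingSubgroup)
    (hMn : ∀ g ∈ K.fixingSubgroup, ∀ σ ∈ M, g * σ * g⁻¹ ∈ M)
    (hMp : ∀ g ∈ K.fixingSubgroup, ∃ m : ℕ, g ^ p ^ m ∈ M)
    (hMi : ∀ Q : Ideal (OO k), Q.IsMaximal → (p : OO k) ∉ Q → ∀ σ ∈ inertia Q, σ ∈ K.fixingSubgroup → σ ∈ M)
    (hVE : V ≤ E ⊓ M) (hVo : IsOpen (V : Set (GF k))) (hVn : ∀ g ∈ E ⊓ M, ∀ σ ∈ V, g * σ * g⁻¹ ∈ V)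
    (hVp : ∀ g ∈ E ⊓ M, ∃ m : ℕ, g ^ p ^ m ∈ V)
    (hVi : ∀ Q : Ideal (OO k), Q.IsMaximal → ∀ σ ∈ inertia Q, σ ∈ E ⊓ M → σ ∈ V)
    {P : Ideal (OO k)} (hP : P.IsMaximal) (hpP : (p : OO k) ∈ P)
    -- a subextension over which the extension is totally ramified
    {W : Subgroup (GF k)} (hMW : M ≤ W) (hWG : W ≤ K.fixingSubgroup)
    (hWn : ∀ g ∈ K.fixingSubgroup, ∀ σ ∈ W, g * σ * g⁻¹ ∈ W)
    (hWi : ∀ g ∈ E ⊓ W, ∃ i ∈ inertia P, i ∈ E ⊓ W ∧ i⁻¹ * g ∈ M) :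
    V.relIndex (E ⊓ M) ≠ 0 ∧ V.relIndex (E ⊓ M) ≤ ((H ⊓ W).relIndex K.fixingSubgroup) ^ (Nat.card T + 1) ∧
      ∀ a ∈ E ⊓ M, ∀ b ∈ E ⊓ M, a * b * a⁻¹ * b⁻¹ ∈ V := by
  have hinter : ∀ {W' : Subgroup (GF k)}, M ≤ W' → (∀ g ∈ K.fixingSubgroup, ∀ σ ∈ W', g * σ * g⁻¹ ∈ W') →
      PExt p K T (H ⊓ W') := by
    intro W' hW1 hW2
    refine ⟨?_, inf_le_left.trans hH.le, fun g hg σ hσ => ⟨hH.conj g hg σ hσ.1, hW2 g hg σ hσ.2⟩, fun g hg => ?_,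
      fun Q hQ hpQ hQT hQn σ hσ hσK => ⟨hH.unr Q hQ hpQ hQT hQn σ hσ hσK, hW1 (hMi Q hQ hpQ σ hσ hσK)⟩⟩
    · have hWo : IsOpen (W' : Set (GF k)) := Subgroup.isOpen_mono hW1 hMo
      exact hH.opn.inter hWo
    · obtain ⟨m, hm⟩ := hH.pow g hg
      obtain ⟨m', hm'⟩ := hMp g hg
      refine ⟨m + m', ?_, ?_⟩
      · rw [pow_add, pow_mul]
        exact H.pow_mem hm _
      · rw [pow_add, mul_comm, pow_mul]
        exact W'.pow_mem (hW1 hm') _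
  obtain ⟨U, hUV, hUn, hUd⟩ := dens hCHR K hinf h1 hcl hTf hT (hinter le_rfl hMn)
    (inf_le_inf_right M hHE) (inf_le_left.trans hE) hVE hVo hVn hVp hVi hP hpP
  set E1 : Subgroup (GF k) := E ⊓ W with hE1
  have hNE1 : E ⊓ M ≤ E1 := inf_le_inf_left E hMW
  have hVE1 : V ≤ E1 := hVE.trans hNE1
  have hE1G : E1 ≤ K.fixingSubgroup := inf_le_left.trans hE
  have hNn : ∀ g ∈ E1, ∀ σ ∈ E ⊓ M, g * σ * g⁻¹ ∈ E ⊓ M := fun g hg σ hσ =>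
    ⟨E.mul_mem (E.mul_mem hg.1 hσ.1) (E.inv_mem hg.1), hMn g (hE1G hg) σ hσ.2⟩
  have hdec : ∀ g ∈ E1, ∃ δ ∈ dec P, δ ∈ E1 ∧ δ⁻¹ * g ∈ U := by
    intro g hg
    obtain ⟨δ, hδ, -, hδg⟩ := hUd g (hE1G hg)
    refine ⟨δ, hδ, ?_, hδg⟩
    have h2 := E1.mul_mem hg (E1.inv_mem (hVE1 (hUV hδg)))
    rw [_root_.mul_inv_rev, inv_inv, mul_inv_cancel_left] at h2
    exact h2
  -- `V` is normal in `E1`
  have hVδ : ∀ δ ∈ dec P, δ ∈ E1 → ∀ v ∈ V, δ * v * δ⁻¹ ∈ V := by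
    intro δ hδ hδE v hv
    obtain ⟨ε, hε, hεG, hεv⟩ := hUd v (hE1G (hVE1 hv))
    have hεV : ε ∈ V := by
      have h2 := V.mul_mem hv (V.inv_mem (hUV hεv))
      rw [_root_.mul_inv_rev, inv_inv, mul_inv_cancel_left] at h2
      exact h2
    have e : δ * v * δ⁻¹ = (δ * ε * δ⁻¹ * ε⁻¹) * (ε * (δ * (ε⁻¹ * v) * δ⁻¹)) := by group
    rw [e]
    refine V.mul_mem (hVi P hP _ (comm_inertia hP hpP hδ hε) ?_) (V.mul_mem hεV (hUV (hUn δ (hE1G hδE) _ hεv)))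
    exact (E ⊓ M).mul_mem (hNn δ hδE ε (hVE hεV)) ((E ⊓ M).inv_mem (hVE hεV))
  have hVn1 : ∀ g ∈ E1, ∀ v ∈ V, g * v * g⁻¹ ∈ V := by
    intro g hg v hv
    obtain ⟨δ, hδ, hδE, hδg⟩ := hdec g hg
    have e : g * v * g⁻¹ = δ * ((δ⁻¹ * g) * v * (δ⁻¹ * g)⁻¹) * δ⁻¹ := by group
    rw [e]
    exact hVδ δ hδ hδE _ (V.mul_mem (V.mul_mem (hUV hδg) hv) (V.inv_mem (hUV hδg)))
  -- the group `V'`
  let V' : Subgroup (GF k) :=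
    { carrier := {g | g ∈ E1 ∧ ∃ i ∈ inertia P, i ∈ E1 ∧ i⁻¹ * g ∈ V}
      one_mem' := ⟨E1.one_mem, 1, (inertia P).one_mem, E1.one_mem, by
        rw [inv_one, one_mul]; exact V.one_mem⟩
      mul_mem' := by
        rintro a b ⟨ha, i, hi, hiE, hia⟩ ⟨hb, j, hj, hjE, hjb⟩
        refine ⟨E1.mul_mem ha hb, i * j, (inertia P).mul_mem hi hj, E1.mul_mem hiE hjE, ?_⟩
        have e : (i * j)⁻¹ * (a * b) = (j⁻¹ * (i⁻¹ * a) * j⁻¹⁻¹) * (j⁻¹ * b) := by group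
        rw [e]
        exact V.mul_mem (hVn1 _ (E1.inv_mem hjE) _ hia) hjb
      inv_mem' := by
        rintro a ⟨ha, i, hi, hiE, hia⟩
        refine ⟨E1.inv_mem ha, i⁻¹, (inertia P).inv_mem hi, E1.inv_mem hiE, ?_⟩
        have e : i⁻¹⁻¹ * a⁻¹ = i * (i⁻¹ * a)⁻¹ * i⁻¹ := by group
        rw [e]
        exact hVn1 _ hiE _ (V.inv_mem hia) }
  have hV'E : V' ≤ E1 := fun g hg => hg.1
  have hVV' : V ≤ V' := fun g hg => ⟨hVE1 hg, 1, (inertia P).one_mem, E1.one_mem, by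
    rw [inv_one, one_mul]; exact hg⟩
  have hV'n : ∀ g ∈ E1, ∀ σ ∈ V', g * σ * g⁻¹ ∈ V' := by
    intro g hg σ hσ
    obtain ⟨δ, hδ, hδE, hδg⟩ := hdec g hg
    have hu : δ⁻¹ * g ∈ V' := hVV' (hUV hδg)
    have e : g * σ * g⁻¹ = δ * ((δ⁻¹ * g) * σ * (δ⁻¹ * g)⁻¹) * δ⁻¹ := by group
    rw [e]
    obtain ⟨ha, i, hi, hiE, hia⟩ := V'.mul_mem (V'.mul_mem hu hσ) (V'.inv_mem hu)
    refine ⟨E1.mul_mem (E1.mul_mem hδE ha) (E1.inv_mem hδE), δ * i * δ⁻¹, ?_,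
      E1.mul_mem (E1.mul_mem hδE hiE) (E1.inv_mem hδE), ?_⟩
    · have h2 : δ⁻¹⁻¹ * i * δ⁻¹ ∈ inertia P := inertia_conj (P := P) (Q := P) (g := δ⁻¹)
        (fun x => (dec P).inv_mem ((dec P).inv_mem hδ) x) hi
      rw [inv_inv] at h2
      exact h2
    · have e2 : (δ * i * δ⁻¹)⁻¹ * (δ * ((δ⁻¹ * g) * σ * (δ⁻¹ * g)⁻¹) * δ⁻¹) =
          δ * (i⁻¹ * ((δ⁻¹ * g) * σ * (δ⁻¹ * g)⁻¹)) * δ⁻¹ := by group
      rw [e2]
      exact hVδ δ hδ hδE _ hia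
  have hV'o : IsOpen (V' : Set (GF k)) := Subgroup.isOpen_mono hVV' hVo
  have hV'p : ∀ g ∈ E1, ∃ m : ℕ, g ^ p ^ m ∈ V' := by
    intro g hg
    obtain ⟨a, ha⟩ := hMp g (hE1G hg)
    obtain ⟨b, hb⟩ := hVp (g ^ p ^ a) ⟨E.pow_mem hg.1 _, ha⟩
    refine ⟨a + b, hVV' ?_⟩
    rw [pow_add, pow_mul]
    exact hb
  have hV'i : ∀ Q : Ideal (OO k), Q.IsMaximal → ∀ σ ∈ inertia Q, σ ∈ E1 → σ ∈ V' := by
    intro Q hQ σ hσ hσE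
    by_cases hpQ : (p : OO k) ∈ Q
    · obtain ⟨g, hg, hgQ⟩ := trans_fix K hP.isPrime hQ.isPrime (under_eq K h1 hP hQ hpP hpQ)
      have h3 : g⁻¹ * σ * g ∈ inertia P := inertia_conj hgQ hσ
      obtain ⟨δ, hδ, hδG, hδg⟩ := hUd g hg
      -- `g = u δ`
      have hu : g * δ⁻¹ ∈ U := by
        have e : g * δ⁻¹ = δ * (δ⁻¹ * g) * δ⁻¹ := by group
        rw [e]
        exact hUn δ hδG _ hδg
      have huV : g * δ⁻¹ ∈ V' := hVV' (hUV hu)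
      have h4 : δ⁻¹⁻¹ * (g⁻¹ * σ * g) * δ⁻¹ ∈ inertia P := inertia_conj (P := P) (Q := P) (g := δ⁻¹)
        (fun x => (dec P).inv_mem ((dec P).inv_mem hδ) x) h3
      have e : σ = (g * δ⁻¹) * (δ⁻¹⁻¹ * (g⁻¹ * σ * g) * δ⁻¹) * (g * δ⁻¹)⁻¹ := by group
      have h5 : δ⁻¹⁻¹ * (g⁻¹ * σ * g) * δ⁻¹ ∈ E1 := by
        have e2 : δ⁻¹⁻¹ * (g⁻¹ * σ * g) * δ⁻¹ = (g * δ⁻¹)⁻¹ * σ * (g * δ⁻¹) := by group
        rw [e2]
        exact E1.mul_mem (E1.mul_mem (E1.inv_mem (hV'E huV)) hσE) (hV'E huV)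
      rw [e]
      exact V'.mul_mem (V'.mul_mem huV ⟨h5, _, h4, h5, by rw [inv_mul_cancel]; exact V.one_mem⟩) (V'.inv_mem huV)
    · exact hVV' (hVi Q hQ σ hσ ⟨hσE.1, hMi Q hQ hpQ σ hσ (hE1G hσE)⟩)
  obtain ⟨r0, r1, r2⟩ := tower hCHR K hinf h1 hcl hTf hT (hinter hMW hWn)
    (inf_le_inf_right W hHE) hE1G hV'E hV'o hV'n hV'p hV'i hP hpP
  -- the intersection with `E ⊓ M`
  have hcap : ∀ n ∈ E ⊓ M, n ∈ V' → n ∈ V := by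
    rintro n hn ⟨-, i, hi, hiE, hin⟩
    have h2 : i ∈ E ⊓ M := by
      have h3 := (E ⊓ M).mul_mem hn ((E ⊓ M).inv_mem (hVE hin))
      rw [_root_.mul_inv_rev, inv_inv, mul_inv_cancel_left] at h3
      exact h3
    have h4 := V.mul_mem (hVi P hP i hi h2) hin
    rw [mul_inv_cancel_left] at h4
    exact h4
  have hrel : V.relIndex (E ⊓ M) = V'.relIndex (E ⊓ M) := by
    have e : V.subgroupOf (E ⊓ M) = V'.subgroupOf (E ⊓ M) := by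
      ext n
      exact ⟨fun h => hVV' h, fun h => hcap n n.2 h⟩
    unfold Subgroup.relIndex
    rw [e]
  have hle : V'.relIndex (E ⊓ M) ≤ V'.relIndex E1 := Subgroup.relIndex_le_of_le_right hNE1 r0
  have hne : V'.relIndex (E ⊓ M) ≠ 0 := fun h => r0 (Subgroup.relIndex_eq_zero_of_le_right hNE1 h)
  refine ⟨by rw [hrel]; exact hne, by rw [hrel]; exact hle.trans r1, fun a ha b hb => hcap _ ?_
    (r2 a (hNE1 ha) b (hNE1 hb))⟩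
  exact (E ⊓ M).mul_mem ((E ⊓ M).mul_mem ((E ⊓ M).mul_mem ha hb) ((E ⊓ M).inv_mem ha)) ((E ⊓ M).inv_mem hb)

end

end Pool.Agent.V5helper56.GR
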